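import Pool.Agent.H85.LK.Targets

set_option autoImplicit false

/-!
# MP_8f7db2_an: monotonicity of the admissible constants
-/

open MeasureTheory Metric Set ProbabilityTheory
open scoped ENNReal

namespace Pool.Agent.H33.LK

open Pool.Agent.H85.LK

theorem pf_MON : T_MON := by
  intro N n n' Ω Ω' hn hΩ c hc
  obtain ⟨V, hV, hv⟩ := hc
  obtain ⟨V', hV', hfin⟩ : ∃ V' : Submodule ℝ (E N → ℝ), V' ≤ V ∧ Module.finrank ℝ V' = n := by
    rcases Nat.eq_zero_or_pos n with rfl | h0
    · exact ⟨⊥, bot_le, finrank_bot ℝ _⟩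
    · have : FiniteDimensional ℝ V := FiniteDimensional.of_finrank_pos (by omega)
      let b := Module.finBasisOfFinrankEq ℝ V hV
      let f : Fin n → (E N → ℝ) := fun i => (b (Fin.castLE hn i) : V)
      have hf : LinearIndependent ℝ f :=
        (b.linearIndependent.map' V.subtype (Submodule.ker_subtype V)).comp _
          (Fin.castLE_injective hn)
      refine ⟨Submodule.span ℝ (Set.range f), ?_, ?_⟩
      · rw [Submodule.span_le]
        rintro x ⟨i, rfl⟩
        exact (b (Fin.castLE hn i)).2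
      · rw [finrank_span_eq_card hf, Fintype.card_fin]
  refine ⟨V', hfin, fun v hvV => ?_⟩
  obtain ⟨h1, h2, h3, h4⟩ := hv v (hV' hvV)
  exact ⟨h1, h2, h3.trans hΩ, h4⟩

end Pool.Agent.H33.LK
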