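import Pool.Agent.H85.LK.Targets

set_option autoImplicit false

/-!
# MP_8f7db2_an: norm of the field
-/

open MeasureTheory Metric Set ProbabilityTheory
open scoped ENNReal

namespace Pool.Agent.H33.LK

open Pool.Agent.H85.LK

/-- expectation of a function of one coordinate -/
theorem int_inner (hGV : T_GV) {n : ℕ} (u : E n) (hu : ‖u‖ = 1) (f : ℝ → ℝ)
    (hf : Measurable f) :
    ∫ c, f (inner ℝ c u) ∂(stdGaussian (E n)) = ∫ z, f z ∂(gaussianReal 0 1) := by
  have h1 := hGV n u u hu hu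
  have m1 : Measurable fun c : E n => ((inner ℝ c u : ℝ), (inner ℝ c u : ℝ)) := by fun_prop
  have m2 : Measurable fun p : ℝ × ℝ =>
      (p.1, (inner ℝ u u : ℝ) * p.1 + Real.sqrt (1 - (inner ℝ u u : ℝ) ^ 2) * p.2) := by
    fun_prop
  have m3 : Measurable fun q : ℝ × ℝ => f q.1 := hf.comp measurable_fst
  calc ∫ c, f (inner ℝ c u) ∂(stdGaussian (E n))
      = ∫ q : ℝ × ℝ, f q.1 ∂((stdGaussian (E n)).map
          (fun c => ((inner ℝ c u : ℝ), (inner ℝ c u : ℝ)))) := by
        rw [integral_map m1.aemeasurable m3.aestronglyMeasurable]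
    _ = ∫ p : ℝ × ℝ, f p.1 ∂((gaussianReal 0 1).prod (gaussianReal 0 1)) := by
        rw [h1, integral_map m2.aemeasurable m3.aestronglyMeasurable]
    _ = ∫ z, f z ∂(((gaussianReal 0 1).prod (gaussianReal 0 1)).map Prod.fst) := by
        rw [integral_map measurable_fst.aemeasurable hf.aestronglyMeasurable]
    _ = ∫ z, f z ∂(gaussianReal 0 1) := by
        rw [Measure.map_fst_prod, measure_univ, one_smul]

theorem pf_NRM (hGV : T_GV) (hCHP : T_CHP) : T_NRM := by
  intro n b l w hb hl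
  by_cases hw : w = 0
  · subst hw
    simp [GG]
  · have hn : ‖w‖ ≠ 0 := norm_ne_zero_iff.2 hw
    have hu : ‖(‖w‖⁻¹ : ℝ) • w‖ = 1 := by
      rw [norm_smul, norm_inv, norm_norm, inv_mul_cancel₀ hn]
    have h1 : ∀ c : E n, GG b l c w ^ 2 =
        ‖w‖ ^ 2 * chi b l (inner ℝ c ((‖w‖⁻¹ : ℝ) • w)) ^ 2 := by
      intro c
      unfold GG
      rw [inner_smul_right, mul_pow]
      congr 3
      ring
    simp_rw [h1]
    rw [integral_const_mul, int_inner hGV _ hu (fun z => chi b l z ^ 2)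
      ((hCHP b l hb hl).1.pow_const 2)]
    unfold M2
    ring

end Pool.Agent.H33.LK
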